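import Pool.Agent.H583R2.AD.Main

set_option autoImplicit false

/-!
# How much advice do the complements of the sets in `NE` need, relative to a random oracle?
-/

namespace Pool.Agent.Results.MP_6cef49_lc.AdviceLowerNE

open Pool.Agent.H628R3.RO Pool.Agent.H583R2.AD

/-- For almost every oracle `A`: some language in `NE` relative to `A` has a complement that is
not in `NEXP` relative to `A` with `n - 8` bits of advice for the inputs of length `n`. -/
theorem result : ∀ᵐ A ∂randomOracle, ∃ L ∈ NE A, Lᶜ ∉ Adv (NEXP A) (fun n => n - 8) :=
  main1

end Pool.Agent.Results.MP_6cef49_lc.AdviceLowerNE
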