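import Pool.Agent.H622R2.Exp.FinalNEXP

/-!
# How many oracles make `NEXP` closed under complement?

For every gauge `f`, the set of the oracles `A` with `NEXP^A = coNEXP^A` is a null set for `f` if
and only if for every `ε > 0` there are infinitely many `N` with `f N ≤ (log log N) ^ ε`. The same
holds for the set of the oracles with `NEXP^A = coNEXP^A` and `EXP^A ≠ NEXP^A`.

The proof is in modules of helpers 620, 622 and others.
-/

set_option autoImplicit false

namespace Pool.Agent.Results.MP_6cef49_lc.GaugeThreshold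

open Pool.Agent.NPC Pool.Agent.H620R2.Gauge Pool.Agent.H622R2.Exp

theorem result (f : ℕ → ℝ) :
    (Null f {A : Oracle | ∀ L, InNTime Pol A L ↔ InNTime Pol A Lᶜ} ↔
      ∀ ε : ℝ, 0 < ε → ∃ᶠ N : ℕ in Filter.atTop,
        f N ≤ (Real.logb 2 (Real.logb 2 N)) ^ ε) ∧
    (Null f {A : Oracle | (∀ L, InNTime Pol A L ↔ InNTime Pol A Lᶜ) ∧
        ¬ ∀ L, InTime Pol A L ↔ InNTime Pol A L} ↔
      ∀ ε : ℝ, 0 < ε → ∃ᶠ N : ℕ in Filter.atTop,
        f N ≤ (Real.logb 2 (Real.logb 2 N)) ^ ε) :=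
  resNEXP f

end Pool.Agent.Results.MP_6cef49_lc.GaugeThreshold
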