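import Pool.Agent.W900.CH.Thin
import Pool.Agent.W900.CH.EFar

/-!
# On how thin a set of strings can a random oracle be changed to close `NEXP` under complement?

`census Z n` is the number of the strings of length at most `n` in the set `Z`. If for every `ε > 0`
there are infinitely many `n` with `census Z n ≤ (log n) ^ ε`, then for almost every oracle `O` and all
oracles `A` that agree with `O` outside `Z`, `NEXP^A` is not closed under complement. On the other
hand, for every `ε > 0` there is a set `Z` with `census Z n ≤ (log n) ^ ε` for all large `n`, such that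
all oracles can be changed on `Z` such that `NEXP^A` is closed under complement; and for almost every
oracle all changes on `Z` preserve `NEXP^A ⊄ EXP^A`.
-/

set_option autoImplicit false

namespace Pool.Agent.Results.MP_6cef49_lc.ThinChanges

open Pool.Agent.NPC Pool.Agent.H620R2.Gauge Pool.Agent.H622R2.Exp Pool.Agent.W900.CH
open Pool.Agent.H628R3.RO (randomOracle)
open MeasureTheory Filter

theorem result :
    (∀ Z : Set (List Bool),
      (∀ ε : ℝ, 0 < ε → ∃ᶠ n : ℕ in atTop, (census Z n : ℝ) ≤ (Real.logb 2 n) ^ ε) →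
      ∀ᵐ O ∂randomOracle, ∀ A : Oracle, (∀ y ∉ Z, A y = O y) →
        ∃ L, InNTime Pol A L ∧ ¬ InNTime Pol A Lᶜ) ∧
    ∀ ε : ℝ, 0 < ε → ∃ Z : Set (List Bool),
      (∀ᶠ n : ℕ in atTop, (census Z n : ℝ) ≤ (Real.logb 2 n) ^ ε) ∧
      (∀ O : Oracle, ∃ A : Oracle, (∀ y ∉ Z, A y = O y) ∧
        ∀ L, InNTime Pol A L ↔ InNTime Pol A Lᶜ) ∧
      ∀ᵐ O ∂randomOracle, ∀ A : Oracle, (∀ y ∉ Z, A y = O y) →
        ∃ L, InNTime Pol A L ∧ ¬ InTime Pol A L := by
  refine ⟨fun Z hZ => ?_, fun ε hε => ?_⟩
  · have hN : Null (fun N => (census Z (Nat.log 2 N) : ℝ))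
        {A : Oracle | ∀ L, InNTime Pol A L ↔ InNTime Pol A Lᶜ} :=
      (resNEXP _).1.2 fun ε hε =>
        freq_pow (F := fun x => (Real.logb 2 x) ^ ε) (hZ ε hε)
    filter_upwards [ae_thin hN] with O hO A hA
    have h1 := hO A hA
    by_contra h2
    push Not at h2
    refine h1 fun L => ⟨h2 L, fun h => ?_⟩
    have := h2 _ h
    rwa [compl_compl] at this
  · obtain ⟨Z, hZ, h⟩ := exists_thin_NEXP hε
    refine ⟨Z, hZ, fun O => ?_, ?_⟩
    · obtain ⟨A, h1, h2⟩ := h O
      refine ⟨A, h1, fun L => ⟨h2 L, fun h => ?_⟩⟩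
      have := h2 _ h
      rwa [compl_compl] at this
    · have hN : Null (fun N => (census Z (Nat.log 2 N) : ℝ)) {A | InTime Pol A (hit2 A)} := by
        refine nullD good_Pol (asyEXP fun ε' hε' => ?_)
        refine freq_pow (F := fun x => 2 ^ (Real.logb 2 x) ^ ε') (Eventually.frequently ?_)
        have hl : Tendsto (fun n : ℕ => Real.logb 2 (n : ℝ)) atTop atTop :=
          (Real.tendsto_logb_atTop (by norm_num)).comp tendsto_natCast_atTop_atTop
        have h4 := hl.eventually (logb_le_rpow (half_pos hε'))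
        have h5 := hl.eventually ((tendsto_rpow_atTop (half_pos hε')).eventually_ge_atTop ε)
        filter_upwards [hZ, h4, h5, hl.eventually_ge_atTop 1] with n h6 h7 h8 h9
        refine h6.trans ?_
        have h10 : (0 : ℝ) < Real.logb 2 n := by linarith
        have h11 : (Real.logb 2 (n : ℝ)) ^ ε = 2 ^ (Real.logb 2 (Real.logb 2 n) * ε) := by
          rw [Real.rpow_mul (by norm_num), Real.rpow_logb (by norm_num) (by norm_num) h10]
        rw [h11]
        apply Real.rpow_le_rpow_of_exponent_le (by norm_num)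
        have h12 : (Real.logb 2 (n : ℝ)) ^ ε' =
            (Real.logb 2 (n : ℝ)) ^ (ε' / 2) * (Real.logb 2 (n : ℝ)) ^ (ε' / 2) := by
          rw [← Real.rpow_add h10]
          congr 1
          ring
        rw [h12]
        have h13 : (0 : ℝ) ≤ (Real.logb 2 (n : ℝ)) ^ (ε' / 2) := by positivity
        calc Real.logb 2 (Real.logb 2 n) * ε ≤ (Real.logb 2 (n : ℝ)) ^ (ε' / 2) * ε :=
              mul_le_mul_of_nonneg_right h7 hε.le
          _ ≤ _ := mul_le_mul_of_nonneg_left h8 h13
      filter_upwards [ae_thin hN] with O hO A hA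
      exact ⟨hit2 A, hit2_ntime good_Pol A, hO A hA⟩

end Pool.Agent.Results.MP_6cef49_lc.ThinChanges
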